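import Mathlib
import Pool.Agent.Lib_helper9.LG.MainD
import Pool.Agent.Lib_helper9.LG.FinD2

set_option autoImplicit false

/-!
For every `t > 0` and every `0 < ε ≤ 1`: for every large modulus `m` and every interval
`[y, y + x)` inside `[0, m)` of length `x ≥ m ^ ε`, a positive proportion of the classes `c` coprime
to `m` with `c` in this interval have their least prime larger than `t φ(m) log m`. For `y = 0` and
`x = m`: at least `δ φ(m)` of all classes, for every large `m`.
-/

namespace IP.Kept.PositiveProportionEveryModulus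

open Pool.Agent.Lib_helper9.LG

open Classical in
theorem result (t : ℝ) (ht : 0 < t) (ε : ℝ) (hε : 0 < ε) (hε1 : ε ≤ 1) :
    ∃ δ : ℝ, 0 < δ ∧ ∃ m₀ : ℕ, ∀ m : ℕ, m₀ ≤ m → ∀ y x : ℕ, (m : ℝ) ^ ε ≤ x → y + x ≤ m →
      δ * ((m.totient : ℝ) / m * x) ≤ (((Finset.Ico y (y + x)).filter (fun c => c.Coprime m ∧
        ∀ q : ℕ, q.Prime → q ≡ c [MOD m] → t * m.totient * Real.log m < q)).card : ℝ) :=
  finalD2 stmtD t ht ε hε hε1

end IP.Kept.PositiveProportionEveryModulus
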